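import Pool.Agent.X23.L3.Stm

set_option autoImplicit false

namespace Pool.Agent.X188.L3

open Pool.Agent.X23.L3 Filter

theorem exists_orth (f : Fin 3 → ℝ) : ∃ v : Fin 3 → ℝ, v ≠ 0 ∧ f ⬝ᵥ v = 0 := by
  by_cases h : f 0 = 0 ∧ f 1 = 0
  · refine ⟨![1, 0, 0], fun hv => ?_, ?_⟩
    · have := congrFun hv 0
      simp at this
    · simp [dotProduct, Fin.sum_univ_three, h.1]
  · refine ⟨![f 1, -f 0, 0], fun hv => ?_, ?_⟩
    · apply h
      have h0 := congrFun hv 0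
      have h1 := congrFun hv 1
      simp at h0 h1
      exact ⟨h1, h0⟩
    · simp [dotProduct, Fin.sum_univ_three]
      ring

theorem dot_seg (a x z : Fin 3 → ℝ) (t : ℝ) :
    a ⬝ᵥ (x + t • (z - x)) = (1 - t) * (a ⬝ᵥ x) + t * (a ⬝ᵥ z) := by
  rw [dotProduct_add, dotProduct_smul, dotProduct_sub, smul_eq_mul]
  ring

theorem t_PT1 : S_SEG → S_EXTA → S_EXTB → S_FAC → S_PT1 := by
  intro hSEG hEXTA hEXTB hFAC n X S κ R hF hspan f T hT hbd r
  set c : Option {s // s ∈ S} → Fin 3 → ℝ := fun j => j.elim f (fun s => X.a s) with hc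
  set d : Option {s // s ∈ S} → ℝ := fun j => j.elim T (fun s => X.b s) with hd
  have hfeas : ∀ x, (∀ j, c j ⬝ᵥ x ≤ d j) ↔ (f ⬝ᵥ x ≤ T ∧ ∀ s ∈ S, X.a s ⬝ᵥ x ≤ X.b s) := by
    intro x
    constructor
    · intro h
      exact ⟨h none, fun s hs => h (some ⟨s, hs⟩)⟩
    · rintro ⟨h1, h2⟩ j
      rcases j with _ | s
      · exact h1
      · exact h2 s s.2
  have hbd' : ∃ C : ℝ, ∀ x, (∀ j, c j ⬝ᵥ x ≤ d j) → ∀ k, |x k| ≤ C := by
    obtain ⟨C, hC⟩ := hbd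
    refine ⟨C, fun x hx => ?_⟩
    have h := (hfeas x).1 hx
    exact hC x h.2 h.1
  have hoP : f ⬝ᵥ X.o < T := hT X.o (fun i => (X.ho i).le)
  have hne : ∃ x, ∀ j, c j ⬝ᵥ x ≤ d j :=
    ⟨X.o, (hfeas X.o).2 ⟨hoP.le, fun s _ => (X.ho s).le⟩⟩
  by_cases hcase : ∃ x0, (∀ s ∈ S, X.a s ⬝ᵥ x0 ≤ X.b s) ∧
      (∃ i ∈ R r, X.b i < X.a i ⬝ᵥ x0) ∧ T ≤ f ⬝ᵥ x0
  · -- case 2
    obtain ⟨x0, hx0S, hx0R, hx0T⟩ := hcase
    obtain ⟨q, hqf, hqlex, hqspan⟩ := hEXTB _ c d hbd' hne f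
    obtain ⟨hqT, hqS⟩ := (hfeas q).1 hqf
    have hpos : 0 < f ⬝ᵥ x0 - f ⬝ᵥ X.o := by linarith
    set t := (T - f ⬝ᵥ X.o) / (f ⬝ᵥ x0 - f ⬝ᵥ X.o) with ht
    have ht0 : 0 ≤ t := div_nonneg (by linarith) hpos.le
    have ht1 : t ≤ 1 := by
      rw [ht, div_le_one hpos]
      linarith
    have htf : t * (f ⬝ᵥ x0 - f ⬝ᵥ X.o) = T - f ⬝ᵥ X.o := div_mul_cancel₀ _ hpos.ne'
    set z := X.o + t • (x0 - X.o) with hz
    have hzf : f ⬝ᵥ z = T := by
      rw [hz, dot_seg]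
      linarith
    have hzS : ∀ s ∈ S, X.a s ⬝ᵥ z ≤ X.b s := by
      intro s hs
      rw [hz, dot_seg]
      have h1 := mul_le_mul_of_nonneg_left (X.ho s).le (show 0 ≤ 1 - t by linarith)
      have h2 := mul_le_mul_of_nonneg_left (hx0S s hs) ht0
      linarith
    have hqT' : f ⬝ᵥ q = T := by
      refine le_antisymm hqT ?_
      by_cases hzq : z = q
      · rw [← hzq, hzf]
      · have h1 := hqlex z ((hfeas z).2 ⟨hzf.le, hzS⟩) hzq
        have h2 : 0 ≤ f ⬝ᵥ (q - z) := by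
          rcases h1 with h1 | h1
          · exact h1.le
          · exact h1.1.ge
        rw [dotProduct_sub] at h2
        linarith
    have hout : ∀ x, T ≤ f ⬝ᵥ x → ∃ k, X.b k < X.a k ⬝ᵥ x := by
      intro x hx
      by_contra hcon
      push Not at hcon
      have := hT x hcon
      linarith
    have hseg : ∀ t : ℝ, 0 ≤ t → t ≤ 1 → ∃ k, X.b k < X.a k ⬝ᵥ (x0 + t • (q - x0)) := by
      intro t ht0 ht1
      apply hout
      rw [dot_seg, hqT']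
      nlinarith
    have hj := hSEG n X S (R r) (fun k hk l hl ht => hF.cl r k l hk hl ht) x0 q hx0S hqS hseg hx0R
    obtain ⟨k, hk⟩ := hout q hqT'.ge
    obtain ⟨v, hv0, hvf⟩ := exists_orth f
    have hs : ∃ s ∈ S, X.a s ⬝ᵥ q = X.b s := by
      by_contra hcon
      push Not at hcon
      apply hv0
      refine hqspan v (fun j hj => ?_)
      rcases j with _ | s
      · exact hvf
      · exact absurd hj (hcon s s.2)
    obtain ⟨s, hsS, hsq⟩ := hs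
    refine ⟨q, s, hsS, hqS, hqT, hsq, ⟨k, hj k hk, hk⟩, Or.inl ?_⟩
    intro x hxS hxT _ hxq
    exact hqlex x ((hfeas x).2 ⟨hxT, hxS⟩) hxq
  · -- case 1
    have hlt : ∀ x, (∀ s ∈ S, X.a s ⬝ᵥ x ≤ X.b s) → (∃ i ∈ R r, X.b i < X.a i ⬝ᵥ x) →
        f ⬝ᵥ x < T := by
      intro x h1 h2
      by_contra hcon
      push Not at hcon
      exact hcase ⟨x, h1, h2, hcon⟩
    obtain ⟨i, hi⟩ := hF.ne r
    have hiS : i ∉ S := hF.out r i hi
    have hai : 0 < X.a i ⬝ᵥ X.a i := by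
      have h0 : X.a i ≠ 0 := by
        intro h
        have h1 := X.ho i
        have h2 := X.hy i
        rw [h, zero_dotProduct] at h1 h2
        linarith
      have h1 : 0 ≤ X.a i ⬝ᵥ X.a i := by
        unfold dotProduct
        exact Finset.sum_nonneg (fun k _ => mul_self_nonneg _)
      exact lt_of_le_of_ne h1 (fun h => h0 (dotProduct_self_eq_zero.1 h.symm))
    have hev : ∀ s ∈ S, ∀ᶠ ε : ℝ in nhdsWithin 0 (Set.Ioi 0),
        X.a s ⬝ᵥ (X.y i + ε • X.a i) < X.b s := by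
      intro s hs
      have hsi : s ≠ i := fun h => hiS (h ▸ hs)
      have hcont : Continuous fun ε : ℝ => X.a s ⬝ᵥ (X.y i + ε • X.a i) := by
        simp only [dotProduct_add, dotProduct_smul]
        fun_prop
      have h1 : Tendsto (fun ε : ℝ => X.a s ⬝ᵥ (X.y i + ε • X.a i)) (nhds 0)
          (nhds (X.a s ⬝ᵥ (X.y i + (0 : ℝ) • X.a i))) := hcont.tendsto 0
      rw [zero_smul, add_zero] at h1
      exact (h1.mono_left nhdsWithin_le_nhds).eventually (gt_mem_nhds (X.hy2 i s hsi))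
    obtain ⟨ε, hε, hε0⟩ := (((Finset.eventually_all S).2 hev).and self_mem_nhdsWithin).exists
    have hε0' : 0 < ε := hε0
    set x1 := X.y i + ε • X.a i with hx1
    have hx1i : X.b i < X.a i ⬝ᵥ x1 := by
      rw [hx1, dotProduct_add, dotProduct_smul, X.hy i, smul_eq_mul]
      have := mul_pos hε0' hai
      linarith
    have hx1S : ∀ s ∈ S, X.a s ⬝ᵥ x1 ≤ X.b s := fun s hs => (hε s hs).le
    have hx1T := hlt x1 hx1S ⟨i, hi, hx1i⟩
    obtain ⟨q, hqf, hqmax, hqspan⟩ := hEXTA _ c d hbd' hne (X.a i)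
    obtain ⟨hqT, hqS⟩ := (hfeas q).1 hqf
    have hqi : X.b i < X.a i ⬝ᵥ q :=
      lt_of_lt_of_le hx1i (hqmax x1 ((hfeas x1).2 ⟨hx1T.le, hx1S⟩))
    have hqlt := hlt q hqS ⟨i, hi, hqi⟩
    obtain ⟨j, hj, hlex⟩ := hFAC _ c d q hqf hqspan f
    rcases j with _ | s
    · have hj' : f ⬝ᵥ q = T := hj
      linarith
    · refine ⟨q, s, s.2, hqS, hqT, hj, ⟨i, hi, hqi⟩, ?_⟩
      rcases hlex with h | h
      · left
        intro x hxS hxT hxs hxq
        exact h x ((hfeas x).2 ⟨hxT, hxS⟩) hxs hxq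
      · right
        intro x hxS hxT hxs hxq
        exact h x ((hfeas x).2 ⟨hxT, hxS⟩) hxs hxq

end Pool.Agent.X188.L3
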